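import Pool.Agent.H73.NP.T
import Pool.Agent.H49.NP.POS

/-!
# Board `np_modules`, row PSG: one gadget followed by a condition, with tree-width `k`
-/

set_option autoImplicit false

namespace Pool.Agent.H35.NP

open Pool.Agent.H76.SW Pool.Agent.H73.NP Pool.Agent.H49.NP

/-- A body all atoms of which are single symbols, with the atoms indexed by a finite type. -/
noncomputable def mkB {B : Type} {c : ℕ} (n : ℕ) (I : Type) [Fintype I] (src tgt : I → Fin n)
    (lab : I → B ⊕ Fin c) : Body B c where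
  n := n
  m := Fintype.card I
  src i := src ((Fintype.equivFin I).symm i)
  tgt i := tgt ((Fintype.equivFin I).symm i)
  st _ := 2
  aut i := one (lab ((Fintype.equivFin I).symm i), true)

theorem one_path {B V : Type} {c : ℕ} (F : V → (B ⊕ Fin c) → V → Prop) (l : B ⊕ Fin c) (u v : V) :
    (∃ w ∈ (one (l, true)).accepts, Path F u w v) ↔ F u l v := by
  constructor
  · rintro ⟨w, hw, hp⟩
    rw [mem_one] at hw
    subst hw
    obtain ⟨t, h1, h2⟩ := path_cons.1 hp
    rw [path_nil] at h2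
    subst h2
    exact h1
  · intro h
    exact ⟨_, (mem_one _ _).2 rfl, path_cons.2 ⟨v, h, path_nil.2 rfl⟩⟩

theorem mkB_holds {B V : Type} {c n : ℕ} (I : Type) [Fintype I] (src tgt : I → Fin n)
    (lab : I → B ⊕ Fin c) (E : V → B → V → Prop) (R : Fin c → V → V → Prop) (μ : Fin n → V) :
    (mkB n I src tgt lab).Holds E R μ ↔ ∀ i : I, ext E R (μ (src i)) (lab i) (μ (tgt i)) := by
  constructor
  · intro h i
    have h1 := (one_path _ _ _ _).1 (h (Fintype.equivFin I i))
    simp only [mkB, Equiv.symm_apply_apply] at h1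
    exact h1
  · intro h i
    exact (one_path _ _ _ _).2 (h ((Fintype.equivFin I).symm i))

theorem mkB_adj {B : Type} {c n : ℕ} (I : Type) [Fintype I] (src tgt : I → Fin n)
    (lab : I → B ⊕ Fin c) (x y : Fin n) (h : (mkB n I src tgt lab).graph.Adj x y) :
    ∃ i : I, (src i = x ∧ tgt i = y) ∨ (src i = y ∧ tgt i = x) := by
  obtain ⟨_, i, hi⟩ := h
  exact ⟨(Fintype.equivFin I).symm i, hi⟩

theorem mkB_width {B : Type} {c n k : ℕ} (h2 : N_TWO) (I : Type) [Fintype I]
    (src tgt : I → Fin n) (lab : I → B ⊕ Fin c) (B0 B1 : Finset (Fin n))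
    (hc : ∀ v, v ∈ B0 ∨ v ∈ B1)
    (he : ∀ i : I, (src i ∈ B0 ∧ tgt i ∈ B0) ∨ (src i ∈ B1 ∧ tgt i ∈ B1))
    (h0 : B0.card ≤ k + 1) (h1 : B1.card ≤ k + 1) :
    TreeWidthLE (mkB n I src tgt lab).graph k := by
  refine h2 (V := Fin n) _ k B0 B1 hc ?_ h0 h1
  intro u v huv
  obtain ⟨i, ⟨rfl, rfl⟩ | ⟨rfl, rfl⟩⟩ := mkB_adj I src tgt lab u v huv
  · exact he i
  · exact (he i).imp And.symm And.symm

section

variable {A : Type} {k : ℕ}

/-- variable `2` of the clique -/
def v2 (hk : 1 ≤ k) : Fin (k + 2) := ⟨2, by omega⟩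

/-- `G3(p1, p2)` -/
noncomputable def G3 (hk : 1 ≤ k) (ρ : RQ (Alp A k)) : RQ (Alp A k) :=
  .cq 1 (mkB 3 (Fin 3) ![0, 1, 2] ![2, 2, 2]
    ![Sum.inl (Sum.inr ((1 : Fin (k + 3)), Fin.last (k + 2))),
      Sum.inl (Sum.inr ((v2 hk).castSucc, Fin.last (k + 2))), Sum.inr 0])
    (fun _ => ρ) (0 : Fin 3) (1 : Fin 3)

theorem G3_sat (hk : 1 ≤ k) (ρ : RQ (Alp A k)) (V : Type) (E : V → Alp A k → V → Prop)
    (a b : V) : (G3 hk ρ).Sat E a b ↔
      ∃ y, E a (Sum.inr ((1 : Fin (k + 3)), Fin.last (k + 2))) y ∧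
        E b (Sum.inr ((v2 hk).castSucc, Fin.last (k + 2))) y ∧ ρ.Sat E y y := by
  unfold G3
  rw [RQ.Sat]
  constructor
  · rintro ⟨μ, hμ, h0, h1⟩
    rw [mkB_holds] at hμ
    have e0 := hμ 0
    have e1 := hμ 1
    have e2 := hμ 2
    have h0' : μ (0 : Fin 3) = a := h0
    have h1' : μ (1 : Fin 3) = b := h1
    refine ⟨μ (2 : Fin 3), ?_, ?_, ?_⟩
    · rw [← h0']
      exact e0
    · rw [← h1']
      exact e1
    · exact e2
  · rintro ⟨y, h0, h1, h2⟩
    refine ⟨(![a, b, y] : Fin 3 → V), ?_, rfl, rfl⟩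
    rw [mkB_holds]
    intro i
    fin_cases i
    · exact h0
    · exact h1
    · exact h2

theorem G3_width (h2 : N_TWO) (hk : 1 ≤ k) (ρ : RQ (Alp A k)) (hρ : ρ.Width k) :
    (G3 hk ρ).Width k := by
  unfold G3
  rw [RQ.Width]
  refine ⟨mkB_width h2 _ _ _ _ {0, 2} {1, 2} ?_ ?_ ?_ ?_, fun _ => hρ⟩
  · decide
  · intro i
    fin_cases i
    · left; decide
    · right; decide
    · left; decide
  · exact Finset.card_le_two.trans (by omega)
  · exact Finset.card_le_two.trans (by omega)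

/-- the atoms of `G2` -/
abbrev I2 (k : ℕ) : Type := {e : Fin (k + 2) × Fin (k + 2) // e.1 < e.2 ∧ e ≠ (0, 1)} ⊕ Unit

/-- `G2(x, p1)` -/
noncomputable def G2 (hk : 1 ≤ k) (ρ : RQ (Alp A k)) : RQ (Alp A k) :=
  .cq 1 (mkB (k + 2) (I2 k) (Sum.elim (fun e => e.1.1) fun _ => 1)
    (Sum.elim (fun e => e.1.2) fun _ => v2 hk)
    (Sum.elim (fun e => Sum.inl (Sum.inr (e.1.1.castSucc, e.1.2.castSucc))) fun _ => Sum.inr 0))
    (fun _ => G3 hk ρ) (0 : Fin (k + 2)) (1 : Fin (k + 2))

theorem G2_sat (hk : 1 ≤ k) (ρ : RQ (Alp A k)) (V : Type) (E : V → Alp A k → V → Prop)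
    (a b : V) : (G2 hk ρ).Sat E a b ↔
      ∃ ν : Fin (k + 2) → V, (∀ s t : Fin (k + 2), s < t → (s, t) ≠ (0, 1) →
        E (ν s) (Sum.inr (s.castSucc, t.castSucc)) (ν t)) ∧
        (G3 hk ρ).Sat E (ν 1) (ν (v2 hk)) ∧ ν 0 = a ∧ ν 1 = b := by
  unfold G2
  rw [RQ.Sat]
  constructor
  · rintro ⟨μ, hμ, h0, h1⟩
    rw [mkB_holds] at hμ
    refine ⟨μ, fun s t hst hne => ?_, ?_, h0, h1⟩
    · exact hμ (Sum.inl ⟨(s, t), hst, hne⟩)
    · exact hμ (Sum.inr ())
  · rintro ⟨ν, h, h3, h0, h1⟩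
    refine ⟨ν, ?_, h0, h1⟩
    rw [mkB_holds]
    rintro (⟨⟨s, t⟩, hst, hne⟩ | ⟨⟩)
    · exact h s t hst hne
    · exact h3

theorem G2_width (h2 : N_TWO) (hk : 1 ≤ k) (ρ : RQ (Alp A k)) (hρ : ρ.Width k) :
    (G2 hk ρ).Width k := by
  unfold G2
  rw [RQ.Width]
  refine ⟨mkB_width h2 _ _ _ _ (Finset.univ.erase 0) (Finset.univ.erase 1) ?_ ?_ ?_ ?_,
    fun _ => G3_width h2 hk ρ hρ⟩
  · intro v
    by_cases h : v = 0
    · right
      subst h
      rw [Finset.mem_erase]
      exact ⟨by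
        intro h
        have := congrArg Fin.val h
        simp at this, Finset.mem_univ _⟩
    · left
      exact Finset.mem_erase.2 ⟨h, Finset.mem_univ _⟩
  · rintro (⟨⟨s, t⟩, hst, hne⟩ | ⟨⟩)
    · simp only [Sum.elim_inl, Finset.mem_erase, Finset.mem_univ, and_true]
      by_cases h : s = 0
      · right
        refine ⟨?_, ?_⟩
        · rw [h]
          intro h
          have := congrArg Fin.val h
          simp at this
        · rintro rfl
          exact hne (by rw [h])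
      · left
        refine ⟨h, ?_⟩
        intro h0
        have h1 : s < 0 := by
          have := hst
          simp only at this
          rwa [h0] at this
        exact absurd h1 (Fin.not_lt_zero s)
    · left
      simp only [Sum.elim_inr, Finset.mem_erase, Finset.mem_univ, and_true]
      refine ⟨?_, ?_⟩
      · intro h
        have := congrArg Fin.val h
        simp at this
      · intro h
        have := congrArg Fin.val h
        simp [v2] at this
  · rw [Finset.card_erase_of_mem (Finset.mem_univ _), Finset.card_univ, Fintype.card_fin]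
    omega
  · rw [Finset.card_erase_of_mem (Finset.mem_univ _), Finset.card_univ, Fintype.card_fin]
    omega

/-- `G(x, x)` -/
noncomputable def G1 (hk : 1 ≤ k) (ρ : RQ (Alp A k)) : RQ (Alp A k) :=
  .cq 1 (mkB 2 (Fin 2) ![0, 0] ![1, 1]
    ![Sum.inl (Sum.inr ((0 : Fin (k + 3)), (1 : Fin (k + 3)))), Sum.inr 0])
    (fun _ => G2 hk ρ) (0 : Fin 2) (0 : Fin 2)

theorem G1_sat (hk : 1 ≤ k) (ρ : RQ (Alp A k)) (V : Type) (E : V → Alp A k → V → Prop)
    (a b : V) : (G1 hk ρ).Sat E a b ↔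
      a = b ∧ ∃ p, E a (Sum.inr ((0 : Fin (k + 3)), (1 : Fin (k + 3)))) p ∧
        (G2 hk ρ).Sat E a p := by
  unfold G1
  rw [RQ.Sat]
  constructor
  · rintro ⟨μ, hμ, h0, h1⟩
    rw [mkB_holds] at hμ
    have e0 := hμ 0
    have e1 := hμ 1
    have h0' : μ (0 : Fin 2) = a := h0
    have h1' : μ (0 : Fin 2) = b := h1
    refine ⟨h0'.symm.trans h1', μ (1 : Fin 2), ?_, ?_⟩
    · rw [← h0']
      exact e0
    · rw [← h0']
      exact e1
  · rintro ⟨rfl, p, h0, h1⟩
    refine ⟨(![a, p] : Fin 2 → V), ?_, rfl, rfl⟩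
    rw [mkB_holds]
    intro i
    fin_cases i
    · exact h0
    · exact h1

theorem G1_width (h2 : N_TWO) (hk : 1 ≤ k) (ρ : RQ (Alp A k)) (hρ : ρ.Width k) :
    (G1 hk ρ).Width k := by
  unfold G1
  rw [RQ.Width]
  exact ⟨tw_small (n := 2) _ (by omega), fun _ => G2_width h2 hk ρ hρ⟩

theorem beta_sat (V : Type) (E : V → Alp A k → V → Prop) (x y : V) :
    (beta A k).Sat E x y ↔ ∃ μ : Fin (k + 3) → V,
      (∀ e : Fin (k + 3) × Fin (k + 3), GE k e → E (μ e.1) (Sum.inr e) (μ e.2)) ∧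
      μ 0 = x ∧ μ (Fin.last (k + 2)) = y := by
  unfold beta
  rw [RQ.Sat]
  constructor
  · rintro ⟨μ, hμ, h0, h1⟩
    refine ⟨μ, fun e he => ?_, h0, h1⟩
    have h := (one_path _ _ _ _).1
      (hμ (Fintype.equivFin {e : Fin (k + 3) × Fin (k + 3) // GE k e} ⟨e, he⟩))
    simp only [gadget, Equiv.symm_apply_apply] at h
    exact h
  · rintro ⟨μ, hμ, h0, h1⟩
    refine ⟨μ, fun i => (one_path _ _ _ _).2 ?_, h0, h1⟩
    exact hμ _ ((Fintype.equivFin {e : Fin (k + 3) × Fin (k + 3) // GE k e}).symm i).2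

end

theorem pf_PSG (h : N_TWO) : Pool.Agent.H73.NP.N_PSG := by
  intro A k hk ρ hρ
  refine ⟨G1 hk ρ, G1_width h hk ρ hρ, fun V E x x' => ?_⟩
  rw [G1_sat]
  refine and_congr_right fun _ => ?_
  have c0 : (0 : Fin (k + 2)).castSucc = (0 : Fin (k + 3)) := rfl
  have c1 : (1 : Fin (k + 2)).castSucc = (1 : Fin (k + 3)) := by
    apply Fin.ext
    simp
  constructor
  · rintro ⟨p, hp, h2⟩
    rw [G2_sat] at h2
    obtain ⟨ν, hν, h3, h0, h1⟩ := h2
    rw [G3_sat] at h3
    obtain ⟨y, hy1, hy2, hy⟩ := h3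
    refine ⟨y, ?_, hy⟩
    rw [beta_sat]
    have es : ∀ s : Fin (k + 2), (Fin.snoc ν y : Fin (k + 3) → V) s.castSucc = ν s := fun s =>
      Fin.snoc_castSucc (α := fun _ => V) _ _ _
    have el : (Fin.snoc ν y : Fin (k + 3) → V) (Fin.last (k + 2)) = y :=
      Fin.snoc_last (α := fun _ => V) _ _
    refine ⟨Fin.snoc ν y, ?_, ?_, el⟩
    · rintro ⟨s, t⟩ ⟨hst, hor⟩
      simp only at hst hor ⊢
      rcases Fin.eq_castSucc_or_eq_last t with ⟨t', rfl⟩ | rfl
      · have hs : (s : ℕ) < k + 2 := by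
          have h5 := Fin.lt_def.1 hst
          have h6 := t'.2
          simp only [Fin.val_castSucc] at h5
          omega
        obtain ⟨s', rfl⟩ : ∃ s' : Fin (k + 2), s = s'.castSucc := ⟨⟨s, hs⟩, rfl⟩
        rw [es, es]
        have hst' : s' < t' := hst
        by_cases hne : (s', t') = (0, 1)
        · obtain ⟨rfl, rfl⟩ := Prod.mk.inj hne
          rw [c0, c1, h0, h1]
          exact hp
        · exact hν s' t' hst' hne
      · have hor' : (s : ℕ) = 1 ∨ (s : ℕ) = 2 := by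
          rcases hor with h5 | h5 | h5
          · exfalso
            simp at h5
          · exact Or.inl h5
          · exact Or.inr h5
        rw [el]
        rcases hor' with h5 | h5
        · have hs : s = (1 : Fin (k + 2)).castSucc := by
            apply Fin.ext
            rw [h5]
            simp
          rw [hs, es]
          rw [c1]
          exact hy1
        · have hs : s = (v2 hk).castSucc := by
            apply Fin.ext
            rw [h5]
            rfl
          rw [hs, es]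
          exact hy2
    · rw [← h0]
      exact es 0
  · rintro ⟨y, hb, hy⟩
    rw [beta_sat] at hb
    obtain ⟨μ, hμ, h0, h1⟩ := hb
    refine ⟨μ 1, ?_, ?_⟩
    · rw [← h0]
      refine hμ (0, 1) ⟨?_, Or.inl ?_⟩
      · simp only [Fin.lt_def]
        simp
      · simp
    · rw [G2_sat]
      refine ⟨fun s => μ s.castSucc, ?_, ?_, ?_, ?_⟩
      · intro s t hst _
        refine hμ (s.castSucc, t.castSucc) ⟨hst, Or.inl ?_⟩
        have := t.2
        simp only [Fin.val_castSucc]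
        omega
      · rw [G3_sat]
        refine ⟨y, ?_, ?_, hy⟩
        · simp only
          rw [c1, ← h1]
          refine hμ (1, Fin.last (k + 2)) ⟨?_, Or.inr (Or.inl ?_)⟩
          · simp only [Fin.lt_def]
            simp
          · simp
        · simp only
          rw [← h1]
          refine hμ ((v2 hk).castSucc, Fin.last (k + 2)) ⟨?_, Or.inr (Or.inr rfl)⟩
          simp only [Fin.lt_def, v2]
          simp
          omega
      · simp only
        rw [c0]
        exact h0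
      · simp only
        rw [c1]

end Pool.Agent.H35.NP
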